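import Pool.Agent.H79.QN.Stmts

/-!
# Row AC8 of the board `qn` (helper45)
-/

set_option autoImplicit false

namespace Pool.Agent.H79.QN

open Finset

/-- primitive vectors with determinant zero are equal or opposite -/
theorem ac8_par {d d' : ℤ × ℤ} (h1 : IsCoprime d.1 d.2) (h2 : IsCoprime d'.1 d'.2)
    (h : crs d d' = 0) : d' = d ∨ d' = -d := by
  obtain ⟨a, b, hab⟩ := h1
  obtain ⟨a', b', hab'⟩ := h2
  unfold crs at h
  have e1 : d'.1 = (a * d'.1 + b * d'.2) * d.1 := by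
    linear_combination d'.1 * (-hab) - b * h
  have e2 : d'.2 = (a * d'.1 + b * d'.2) * d.2 := by
    linear_combination d'.2 * (-hab) + a * h
  set g := a * d'.1 + b * d'.2 with hg
  have e3 : g * (a' * d.1 + b' * d.2) = 1 := by
    linear_combination hab' - a' * e1 - b' * e2
  rcases Int.eq_one_or_neg_one_of_mul_eq_one e3 with h3 | h3
  · left
    rw [h3, one_mul] at e1 e2
    exact Prod.ext e1 e2
  · right
    rw [h3, neg_one_mul] at e1 e2
    exact Prod.ext e1 e2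

theorem ac8 : S_AC8 := by
  intro z₀ r K l h D hA hh1 hh2 hD
  have hr1 := hA.r1
  have hr0 : 0 < r := by linarith
  have hh0 : 0 < h := by linarith
  have hK1 := hA.K1
  have hl1 := hA.l1
  have hrh : 0 < r * h := mul_pos hr0 hh0
  have hKh : 1000 * (K * h) ≤ r := by
    have e : r ^ (2 / 3 : ℝ) * r ^ (1 / 3 : ℝ) = r := by
      rw [← Real.rpow_add hr0]
      norm_num
    have h1 : (1000 * K) * h ≤ r ^ (2 / 3 : ℝ) * r ^ (1 / 3 : ℝ) :=
      mul_le_mul hA.Kr hh2 hh0.le (by positivity)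
    rw [e] at h1
    linarith
  have hKr : 1000 * K ≤ r := by
    have : K ≤ K * h := le_mul_of_one_le_right (by linarith) hh1
    linarith
  have hlr := hA.lr
  have hB : 20 * K + 2 * l * h ≤ 0.03 * (r * h) := by
    have h1 : r ≤ r * h := le_mul_of_one_le_right hr0.le hh1
    have h2 : 1000 * l * h ≤ r * h := mul_le_mul_of_nonneg_right hlr hh0.le
    nlinarith
  have hB0 : 0 ≤ 20 * K + 2 * l * h := by positivity
  -- properties of the members
  have hY : ∀ d ∈ D, 0.99 * (r * h) ≤ (crs z₀ d : ℝ) ∧ (crs z₀ d : ℝ) < 2 * (r * h) := by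
    intro d hd
    obtain ⟨-, h2, h3, h4, h5⟩ := hD d hd
    have hpos : (0 : ℝ) < crs z₀ d := by exact_mod_cast h2
    have hid : (dot z₀ d : ℝ) ^ 2 + (crs z₀ d : ℝ) ^ 2 = r ^ 2 * nsq d := by
      rw [hA.rsq]
      have : dot z₀ d ^ 2 + crs z₀ d ^ 2 = nsq z₀ * nsq d := by
        unfold dot crs nsq
        ring
      exact_mod_cast this
    have hX : (dot z₀ d : ℝ) ^ 2 ≤ (0.03 * (r * h)) ^ 2 := by
      rw [← sq_abs]
      exact pow_le_pow_left₀ (abs_nonneg _) (h5.trans hB) 2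
    have hr2 : 0 < r ^ 2 := by positivity
    constructor
    · by_contra hc
      rw [not_le] at hc
      have h6 : (crs z₀ d : ℝ) ^ 2 < (0.99 * (r * h)) ^ 2 := pow_lt_pow_left₀ hc hpos.le two_ne_zero
      have h7 : r ^ 2 * h ^ 2 ≤ r ^ 2 * nsq d := mul_le_mul_of_nonneg_left h3 hr2.le
      nlinarith [sq_nonneg (r * h)]
    · by_contra hc
      rw [not_lt] at hc
      have h6 : (2 * (r * h)) ^ 2 ≤ (crs z₀ d : ℝ) ^ 2 := pow_le_pow_left₀ (by positivity) hc 2
      have h7 : r ^ 2 * (nsq d : ℝ) < r ^ 2 * (4 * h ^ 2) := mul_lt_mul_of_pos_left h4 hr2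
      nlinarith [sq_nonneg (dot z₀ d : ℝ)]
  set S : ℝ := (20 * K + 2 * l * h) / (0.99 * (r * h)) with hS
  have hS0 : 0 ≤ S := by positivity
  have hσ : ∀ d ∈ D, |(dot z₀ d : ℝ) / crs z₀ d| ≤ S := by
    intro d hd
    have h1 := (hY d hd).1
    have h2 : 0 < 0.99 * (r * h) := by positivity
    rw [abs_div, abs_of_pos (by linarith : (0 : ℝ) < crs z₀ d)]
    exact div_le_div₀ hB0 (hD d hd).2.2.2.2 h2 h1
  set F : ℤ × ℤ → ℤ := fun d => ⌊4 * h ^ 2 * ((dot z₀ d : ℝ) / crs z₀ d + S)⌋ with hF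
  have hinj : Set.InjOn F D := by
    intro d hd d' hd' hff
    by_contra hne
    have h1 := Int.abs_sub_lt_one_of_floor_eq_floor hff
    have hd0 := hD d hd
    have hd0' := hD d' hd'
    have hcr : crs d d' ≠ 0 := by
      intro h0
      rcases ac8_par hd0.1 hd0'.1 h0 with h2 | h2
      · exact hne h2.symm
      · have h3 : crs z₀ d' = - crs z₀ d := by
          rw [h2]
          unfold crs
          simp only [Prod.fst_neg, Prod.snd_neg]
          ring
        have h4 := hd0.2.1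
        have h5 := hd0'.2.1
        omega
    have hcr1 : (1 : ℝ) ≤ |(crs d d' : ℝ)| := by
      have := Int.one_le_abs hcr
      exact_mod_cast this
    have hy := hY d hd
    have hy' := hY d' hd'
    have hyp : (0 : ℝ) < crs z₀ d := by have := hy.1; nlinarith
    have hyp' : (0 : ℝ) < crs z₀ d' := by have := hy'.1; nlinarith
    have hid : (dot z₀ d : ℝ) * crs z₀ d' - crs z₀ d * dot z₀ d' = r ^ 2 * crs d d' := by
      rw [hA.rsq]
      have : dot z₀ d * crs z₀ d' - crs z₀ d * dot z₀ d' = nsq z₀ * crs d d' := by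
        unfold dot crs nsq
        ring
      exact_mod_cast this
    have hdiff : 4 * h ^ 2 * ((dot z₀ d : ℝ) / crs z₀ d + S) -
        4 * h ^ 2 * ((dot z₀ d' : ℝ) / crs z₀ d' + S) =
        4 * h ^ 2 * (r ^ 2 * crs d d') / (crs z₀ d * crs z₀ d') := by
      rw [← hid]
      field_simp
      ring
    have habs : |4 * h ^ 2 * (r ^ 2 * (crs d d' : ℝ))| = 4 * h ^ 2 * (r ^ 2 * |(crs d d' : ℝ)|) := by
      rw [abs_mul (4 * h ^ 2), abs_mul (r ^ 2), abs_of_pos (by positivity : (0 : ℝ) < 4 * h ^ 2),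
        abs_of_pos (by positivity : (0 : ℝ) < r ^ 2)]
    rw [hdiff, abs_div, abs_of_pos (mul_pos hyp hyp'), div_lt_one (mul_pos hyp hyp'), habs] at h1
    have h6 : (crs z₀ d : ℝ) * crs z₀ d' < (2 * (r * h)) * (2 * (r * h)) :=
      mul_lt_mul'' hy.2 hy'.2 hyp.le hyp'.le
    have h7 : 4 * h ^ 2 * r ^ 2 ≤ 4 * h ^ 2 * (r ^ 2 * |(crs d d' : ℝ)|) := by
      have : r ^ 2 * 1 ≤ r ^ 2 * |(crs d d' : ℝ)| := mul_le_mul_of_nonneg_left hcr1 (by positivity)
      nlinarith [sq_nonneg h]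
    nlinarith
  have himg : ∀ d ∈ D, F d ∈ Finset.Icc (0 : ℤ) ⌊8 * h ^ 2 * S⌋ := by
    intro d hd
    have h1 := abs_le.1 (hσ d hd)
    rw [Finset.mem_Icc]
    constructor
    · apply Int.floor_nonneg.2
      apply mul_nonneg (by positivity)
      linarith [h1.1]
    · apply Int.floor_le_floor
      have h2 : (dot z₀ d : ℝ) / crs z₀ d + S ≤ 2 * S := by linarith [h1.2]
      have h3 := mul_le_mul_of_nonneg_left h2 (by positivity : (0 : ℝ) ≤ 4 * h ^ 2)
      linarith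
  have hcard : D.card ≤ (Finset.Icc (0 : ℤ) ⌊8 * h ^ 2 * S⌋).card :=
    Finset.card_le_card_of_injOn F himg hinj
  rw [Int.card_Icc, sub_zero] at hcard
  have hfl0 : 0 ≤ ⌊8 * h ^ 2 * S⌋ := Int.floor_nonneg.2 (by positivity)
  have hcard2 : (D.card : ℝ) ≤ 8 * h ^ 2 * S + 1 := by
    have h1 : ((D.card : ℕ) : ℤ) ≤ ⌊8 * h ^ 2 * S⌋ + 1 := by
      have := Int.toNat_of_nonneg (by omega : 0 ≤ ⌊8 * h ^ 2 * S⌋ + 1)
      omega
    have h2 : ((D.card : ℤ) : ℝ) ≤ ((⌊8 * h ^ 2 * S⌋ + 1 : ℤ) : ℝ) := by exact_mod_cast h1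
    push_cast at h2
    have h3 := Int.floor_le (8 * h ^ 2 * S)
    linarith
  refine hcard2.trans ?_
  have e1 : 8 * h ^ 2 * S = (160 * (K * h) + 16 * (l * h ^ 2)) / (0.99 * r) := by
    rw [hS]
    field_simp
    ring
  rw [e1]
  have e2 : (160 * (K * h) + 16 * (l * h ^ 2)) / (0.99 * r) ≤ 1 + 20 * (l * h ^ 2 / r) := by
    rw [div_le_iff₀ (by positivity)]
    have e3 : (1 + 20 * (l * h ^ 2 / r)) * (0.99 * r) = 0.99 * r + 19.8 * (l * h ^ 2) := by
      field_simp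
      ring
    rw [e3]
    have : 0 ≤ l * h ^ 2 := by positivity
    linarith
  linarith

end Pool.Agent.H79.QN
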